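import Mathlib

/-!
The limit points of `q ‖qα‖ ‖qβ‖`: as soon as the sequence has values close to zero, multiples of
the corresponding `q` give values close to any given positive number.
-/

set_option autoImplicit false

namespace Pool.Agent.K6.H59.Lit

open Filter Topology

/-- distance to the nearest integer -/
noncomputable def D (x : ℝ) : ℝ := |x - (round x : ℝ)|

lemma D_nonneg (x : ℝ) : 0 ≤ D x := abs_nonneg _

lemma D_le_half (x : ℝ) : D x ≤ 1 / 2 := abs_sub_round x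

lemma D_le (x : ℝ) (z : ℤ) : D x ≤ |x - z| := round_le x z

lemma D_add (x y : ℝ) : D (x + y) ≤ D x + D y := by
  calc D (x + y) ≤ |x + y - ((round x + round y : ℤ) : ℝ)| := D_le _ _
    _ = |(x - round x) + (y - round y)| := by push_cast; ring_nf
    _ ≤ D x + D y := abs_add_le _ _

lemma D_neg (x : ℝ) : D (-x) = D x := by
  have h : ∀ y : ℝ, D (-y) ≤ D y := by
    intro y
    calc D (-y) ≤ |-y - ((-round y : ℤ) : ℝ)| := D_le _ _
      _ = |-(y - round y)| := by push_cast; ring_nf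
      _ = D y := abs_neg _
  apply le_antisymm (h x)
  have := h (-x)
  rwa [neg_neg] at this

lemma D_mul_le (j : ℕ) (x : ℝ) : D (j * x) ≤ j * D x := by
  calc D (j * x) ≤ |j * x - ((j * round x : ℤ) : ℝ)| := D_le _ _
    _ = |(j : ℝ) * (x - round x)| := by push_cast; ring_nf
    _ = j * D x := by rw [abs_mul, Nat.abs_cast]; rfl

lemma D_mul_eq (j : ℕ) (x : ℝ) (h : j * D x ≤ 1 / 2) : D (j * x) = j * D x := by
  apply le_antisymm (D_mul_le j x)
  have h1 : |(j : ℝ) * x - ((j * round x : ℤ) : ℝ)| = j * D x := by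
    have : (j : ℝ) * x - ((j * round x : ℤ) : ℝ) = (j : ℝ) * (x - round x) := by
      push_cast; ring
    rw [this, abs_mul, Nat.abs_cast]; rfl
  by_cases hz : round ((j : ℝ) * x) = j * round x
  · unfold D at *
    rw [hz, h1]
  · have h2 : (1 : ℝ) ≤ |((round ((j : ℝ) * x) : ℤ) : ℝ) - ((j * round x : ℤ) : ℝ)| := by
      have h3 : round ((j : ℝ) * x) - j * round x ≠ 0 := sub_ne_zero.2 hz
      have h4 := Int.one_le_abs h3
      exact_mod_cast h4
    have h5 : |((round ((j : ℝ) * x) : ℤ) : ℝ) - ((j * round x : ℤ) : ℝ)| ≤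
        D (j * x) + j * D x := by
      rw [← h1]
      have h6 : ((round ((j : ℝ) * x) : ℤ) : ℝ) - ((j * round x : ℤ) : ℝ) =
        -((j : ℝ) * x - round ((j : ℝ) * x)) + ((j : ℝ) * x - ((j * round x : ℤ) : ℝ)) := by ring
      rw [h6]
      refine (abs_add_le _ _).trans ?_
      rw [abs_neg]
      rfl
    linarith

lemma D_sub_le (x y : ℝ) : D x - D y ≤ D (x - y) := by
  have := D_add (x - y) y
  rw [sub_add_cancel] at this
  linarith

/-- among `K + 1` consecutive multiples of `b` one is far from the integers -/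
lemma exists_far (b : ℝ) (J K : ℕ) (hK : 1 / 4 ≤ K * D b) :
    ∃ j, J ≤ j ∧ j ≤ J + K ∧ 1 / 8 ≤ D (j * b) := by
  by_contra hcon
  push Not at hcon
  have key : ∀ i : ℕ, i ≤ K → round (((J + i : ℕ) : ℝ) * b) = round ((J : ℝ) * b) + i * round b := by
    intro i
    induction i with
    | zero => intro _; simp
    | succ i ih =>
      intro hi
      have h1 := ih (by omega)
      have h2 := hcon (J + i) (by omega) (by omega)
      have h3 := hcon (J + (i + 1)) (by omega) (by omega)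
      have h4 := D_le_half b
      unfold D at h2 h3 h4
      rw [h1] at h2
      have h5 : |((round (((J + (i + 1) : ℕ) : ℝ) * b) : ℤ) : ℝ) -
          ((round ((J : ℝ) * b) + (i + 1) * round b : ℤ) : ℝ)| < 1 := by
        have e : ((round (((J + (i + 1) : ℕ) : ℝ) * b) : ℤ) : ℝ) -
          ((round ((J : ℝ) * b) + (i + 1) * round b : ℤ) : ℝ) =
          -((((J + (i + 1) : ℕ) : ℝ) * b) - round (((J + (i + 1) : ℕ) : ℝ) * b)) +
          (((((J + i : ℕ) : ℝ) * b) - ((round ((J : ℝ) * b) + i * round b : ℤ) : ℝ)) +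
            (b - round b)) := by
          push_cast; ring
        rw [e]
        refine lt_of_le_of_lt (abs_add_le _ _) ?_
        rw [abs_neg]
        have := abs_add_le ((((J + i : ℕ) : ℝ) * b) - ((round ((J : ℝ) * b) + i * round b : ℤ) : ℝ))
          (b - round b)
        linarith
      have h6 : |round (((J + (i + 1) : ℕ) : ℝ) * b) - (round ((J : ℝ) * b) + (i + 1) * round b)|
          < 1 := by
        exact_mod_cast h5
      rw [Int.abs_lt_one_iff, sub_eq_zero] at h6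
      rw [h6]
      push_cast
      ring
  have h1 := key K le_rfl
  have h2 := hcon J le_rfl (by omega)
  have h3 := hcon (J + K) (by omega) le_rfl
  unfold D at h2 h3 hK
  rw [h1] at h3
  have e : (K : ℝ) * |b - round b| =
      |((((J + K : ℕ) : ℝ) * b) - ((round ((J : ℝ) * b) + K * round b : ℤ) : ℝ)) +
        -((J : ℝ) * b - round ((J : ℝ) * b))| := by
    rw [show ((((J + K : ℕ) : ℝ) * b) - ((round ((J : ℝ) * b) + K * round b : ℤ) : ℝ)) +
        -((J : ℝ) * b - round ((J : ℝ) * b)) = (K : ℝ) * (b - round b) by push_cast; ring,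
      abs_mul, Nat.abs_cast]
  have h4 := abs_add_le ((((J + K : ℕ) : ℝ) * b) -
    ((round ((J : ℝ) * b) + K * round b : ℤ) : ℝ)) (-((J : ℝ) * b - round ((J : ℝ) * b)))
  rw [← e, abs_neg] at h4
  linarith

/-- discrete intermediate value theorem -/
lemma discrete_ivt (f : ℕ → ℝ) (t : ℝ) (n : ℕ) (h0 : f 0 < t) (hn : t ≤ f n) :
    ∃ i, i < n ∧ f i < t ∧ t ≤ f (i + 1) := by
  classical
  have hex : ∃ i, t ≤ f i := ⟨n, hn⟩
  set i := Nat.find hex with hi
  have h1 : t ≤ f i := Nat.find_spec hex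
  have h2 : i ≤ n := Nat.find_min' hex hn
  have h3 : i ≠ 0 := by
    intro h
    rw [h] at h1
    linarith
  obtain ⟨k, hk⟩ := Nat.exists_eq_succ_of_ne_zero h3
  refine ⟨k, by omega, ?_, by rw [hk] at h1; exact h1⟩
  have h4 := Nat.find_min hex (show k < Nat.find hex by omega)
  linarith


/-- the balanced case: cubes -/
lemma case_A (t δ : ℝ) (ht : 0 < t) (hδ : 0 < δ) :
    ∃ ε : ℝ, 0 < ε ∧ ∀ (w v : ℝ), 0 < v → 0 < w → w * v < ε → 64 * t * v ^ 2 ≤ w →
      ∃ j : ℕ, 1 ≤ j ∧ (j : ℝ) * v ≤ 1 / 4 ∧ |(j : ℝ) ^ 3 * (w * v) - t| < δ := by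
  set R : ℝ := max 2 (3 * t / δ + 1) with hR
  have hR2 : 2 ≤ R := le_max_left _ _
  have hR3 : 3 * t / δ + 1 ≤ R := le_max_right _ _
  refine ⟨t / R ^ 3, by positivity, ?_⟩
  intro w v hv hw hlt hle
  have hη : 0 < w * v := mul_pos hw hv
  obtain ⟨r, hr0, hr⟩ : ∃ r : ℝ, 0 < r ∧ r ^ 3 * (w * v) = t := by
    refine ⟨(t / (w * v)) ^ ((1 : ℝ) / 3), by positivity, ?_⟩
    rw [← Real.rpow_natCast, ← Real.rpow_mul (by positivity)]
    norm_num
    field_simp
  have hrR : R < r := by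
    by_contra hcon
    push Not at hcon
    have h1 : r ^ 3 ≤ R ^ 3 := pow_le_pow_left₀ hr0.le hcon 3
    rw [lt_div_iff₀ (by positivity)] at hlt
    nlinarith
  set j := ⌊r⌋₊ with hj
  have hj1 : (j : ℝ) ≤ r := Nat.floor_le hr0.le
  have hj2 : r < j + 1 := Nat.lt_floor_add_one r
  have hj3 : 1 ≤ j := by
    rw [hj, Nat.one_le_floor_iff]
    linarith
  have hrv : r * v ≤ 1 / 4 := by
    -- `64 t v^3 ≤ w v = t / r^3`
    by_contra hcon
    push Not at hcon
    have h1 : (1 / 4 : ℝ) ^ 3 < (r * v) ^ 3 := pow_lt_pow_left₀ hcon (by norm_num) (by norm_num)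
    have h2 : 64 * t * v ^ 2 * v ≤ w * v := mul_le_mul_of_nonneg_right hle hv.le
    have h3 : 64 * t * v ^ 3 * r ^ 3 ≤ t := by
      calc 64 * t * v ^ 3 * r ^ 3 = (64 * t * v ^ 2 * v) * r ^ 3 := by ring
        _ ≤ (w * v) * r ^ 3 := mul_le_mul_of_nonneg_right h2 (by positivity)
        _ = t := by rw [mul_comm]; exact hr
    have h4 : 64 * (r * v) ^ 3 * t ≤ 1 * t := by
      calc 64 * (r * v) ^ 3 * t = 64 * t * v ^ 3 * r ^ 3 := by ring
        _ ≤ 1 * t := by linarith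
    have h5 := le_of_mul_le_mul_right h4 ht
    norm_num at h1
    linarith
  refine ⟨j, hj3, le_trans (mul_le_mul_of_nonneg_right hj1 hv.le) hrv, ?_⟩
  have h1 : (j : ℝ) ^ 3 * (w * v) ≤ t := by
    rw [← hr]
    exact mul_le_mul_of_nonneg_right (pow_le_pow_left₀ (by positivity) hj1 3) hη.le
  have hj4 : (1 : ℝ) ≤ j := by exact_mod_cast hj3
  have h2 : t - (j : ℝ) ^ 3 * (w * v) < δ := by
    have h3 : r ^ 3 - (j : ℝ) ^ 3 ≤ 3 * r ^ 2 := by nlinarith [sq_nonneg (r - j), sq_nonneg r]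
    have h4 : t - (j : ℝ) ^ 3 * (w * v) ≤ 3 * r ^ 2 * (w * v) := by
      have := mul_le_mul_of_nonneg_right h3 hη.le
      nlinarith
    have h5 : 3 * r ^ 2 * (w * v) * r = 3 * t := by rw [← hr]; ring
    have h6 : 3 * t / δ < r := by linarith
    rw [div_lt_iff₀ hδ] at h6
    have h7 : 3 * r ^ 2 * (w * v) < δ := by
      by_contra hcon
      push Not at hcon
      have := mul_le_mul_of_nonneg_right hcon hr0.le
      nlinarith
    linarith
  rw [abs_lt]
  constructor <;> linarith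

/-- the unbalanced case -/
lemma case_B (t δ : ℝ) (ht : 0 < t) (hδ : 0 < δ) :
    ∃ w₀ : ℝ, 0 < w₀ ∧ ∀ (w v b : ℝ), D b = v → 0 < v → 0 < w → w ≤ w₀ → w < 64 * t * v ^ 2 →
      ∃ j : ℕ, 1 ≤ j ∧ (j : ℝ) * w ≤ 1 / 4 ∧ |(j : ℝ) ^ 2 * w * D (j * b) - t| < δ := by
  -- the modulus of the progression is at most `B`
  obtain ⟨B, hB⟩ := exists_nat_gt (256 * t / δ)
  have hB0 : (0 : ℝ) < B := lt_of_le_of_lt (by positivity) hB
  have hB0' : 0 < B := by exact_mod_cast hB0
  set c : ℝ := min (1 / 32) (δ / (32 * B)) with hc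
  have hc0 : 0 < c := by positivity
  have hc1 : c ≤ 1 / 32 := min_le_left _ _
  have hc2 : c ≤ δ / (32 * B) := min_le_right _ _
  refine ⟨min (c ^ 2 / t) (min t (t / B ^ 2)), by positivity, ?_⟩
  intro w v b hb hv hw hw0 hwv
  have hwc : w ≤ c ^ 2 / t := hw0.trans (min_le_left _ _)
  have hwt : w ≤ t := hw0.trans ((min_le_right _ _).trans (min_le_left _ _))
  have hwB : w ≤ t / B ^ 2 := hw0.trans ((min_le_right _ _).trans (min_le_right _ _))
  set s : ℝ := Real.sqrt (t / w) with hs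
  have hs0 : 0 < s := Real.sqrt_pos.2 (by positivity)
  have hs2 : s ^ 2 * w = t := by
    rw [hs, Real.sq_sqrt (by positivity)]
    field_simp
  have hs1 : 1 ≤ s := by
    rw [hs, Real.one_le_sqrt, one_le_div hw]
    exact hwt
  have hsw : s * w ≤ c := by
    have h1 : (s * w) ^ 2 ≤ c ^ 2 := by
      have h2 : (s * w) ^ 2 = t * w := by rw [← hs2]; ring
      rw [h2]
      rw [le_div_iff₀ ht] at hwc
      linarith
    exact le_of_sq_le_sq h1 hc0.le |>.trans le_rfl
  -- `1 / (4 v) ≤ 2 s`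
  have hsv : 1 < 8 * s * v := by
    by_contra hcon
    push Not at hcon
    have h1 : (8 * s * v) ^ 2 ≤ 1 := by
      have : 0 ≤ 8 * s * v := by positivity
      nlinarith
    have h2 : 64 * t * v ^ 2 ≤ w := by
      have h3 : (8 * s * v) ^ 2 * w ≤ 1 * w := mul_le_mul_of_nonneg_right h1 hw.le
      calc 64 * t * v ^ 2 = (8 * s * v) ^ 2 * w := by rw [← hs2]; ring
        _ ≤ w := by linarith
    linarith
  set J := ⌈4 * s⌉₊ with hJ
  set K := ⌈2 * s⌉₊ with hK
  have hJ1 : 4 * s ≤ J := Nat.le_ceil _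
  have hJ2 : (J : ℝ) < 4 * s + 1 := Nat.ceil_lt_add_one (by positivity)
  have hK1 : 2 * s ≤ K := Nat.le_ceil _
  have hK2 : (K : ℝ) < 2 * s + 1 := Nat.ceil_lt_add_one (by positivity)
  obtain ⟨j₁, hj1, hj2, hj3⟩ := exists_far b J K (by
    rw [hb]
    nlinarith)
  have hj1' : (J : ℝ) ≤ j₁ := by exact_mod_cast hj1
  have hj2' : (j₁ : ℝ) ≤ J + K := by exact_mod_cast hj2
  have hj4 : (j₁ : ℝ) ≤ 8 * s := by linarith
  -- Dirichlet
  obtain ⟨m, hm0, hmB, hm⟩ := Real.exists_nat_abs_mul_sub_round_le b hB0'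
  have hmB' : (m : ℝ) ≤ B := by exact_mod_cast hmB
  have hm0' : (1 : ℝ) ≤ m := by exact_mod_cast hm0
  have hmD : D (m * b) ≤ 1 / (B + 1) := hm
  set l := j₁ % m with hl
  have hlm : l < m := Nat.mod_lt _ hm0
  have hdiv : l + m * (j₁ / m) = j₁ := Nat.mod_add_div _ _
  obtain ⟨i, hi1, hi2, hi3⟩ := discrete_ivt
    (fun i => ((l + m * i : ℕ) : ℝ) ^ 2 * w * D (((l + m * i : ℕ) : ℝ) * b)) t (j₁ / m)
    (by
      simp only [mul_zero, add_zero]
      have h1 : (l : ℝ) < B := by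
        have : l < B := lt_of_lt_of_le hlm hmB
        exact_mod_cast this
      have h2 : (l : ℝ) ^ 2 * w ≤ t := by
        rw [le_div_iff₀ (by positivity)] at hwB
        have : (l : ℝ) ^ 2 ≤ (B : ℝ) ^ 2 := pow_le_pow_left₀ (by positivity) h1.le 2
        nlinarith
      have h3 := D_le_half ((l : ℝ) * b)
      have h4 := D_nonneg ((l : ℝ) * b)
      have h5 : 0 ≤ (l : ℝ) ^ 2 * w := by positivity
      nlinarith)
    (by
      rw [hdiv]
      have h1 : (4 * s) ^ 2 ≤ (j₁ : ℝ) ^ 2 := pow_le_pow_left₀ (by positivity) (by linarith) 2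
      have h2 : 16 * t ≤ (j₁ : ℝ) ^ 2 * w := by
        calc 16 * t = (4 * s) ^ 2 * w := by rw [← hs2]; ring
          _ ≤ _ := mul_le_mul_of_nonneg_right h1 hw.le
      nlinarith)
  set j' := l + m * i with hj'
  have hjj : l + m * (i + 1) = j' + m := by rw [hj']; ring
  rw [hjj] at hi3
  have hjle : j' + m ≤ j₁ := by
    rw [← hjj, ← hdiv]
    exact Nat.add_le_add_left (Nat.mul_le_mul_left _ (by omega)) _
  have hjle' : ((j' + m : ℕ) : ℝ) ≤ 8 * s := le_trans (by exact_mod_cast hjle) hj4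
  refine ⟨j' + m, by omega, ?_, ?_⟩
  · calc ((j' + m : ℕ) : ℝ) * w ≤ 8 * s * w := mul_le_mul_of_nonneg_right hjle' hw.le
      _ ≤ 8 * c := by linarith
      _ ≤ 1 / 4 := by linarith
  · push_cast at hi3 hjle' ⊢
    have hj'0 : (0 : ℝ) ≤ j' := Nat.cast_nonneg _
    have e1 : ((j' : ℝ) + m) * b = j' * b + m * b := by ring
    have h1 : D (((j' : ℝ) + m) * b) - D ((j' : ℝ) * b) ≤ 1 / (B + 1) := by
      have := D_add ((j' : ℝ) * b) (m * b)
      rw [e1]
      linarith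
    have h2 := D_le_half (((j' : ℝ) + m) * b)
    have h2' := D_nonneg (((j' : ℝ) + m) * b)
    have h3 : ((j' : ℝ) + m) ^ 2 * w * D (((j' : ℝ) + m) * b) -
        (j' : ℝ) ^ 2 * w * D ((j' : ℝ) * b) ≤
        (m * (2 * j' + m)) * w * (1 / 2) + (j' : ℝ) ^ 2 * w * (1 / (B + 1)) := by
      have e2 : ((j' : ℝ) + m) ^ 2 * w * D (((j' : ℝ) + m) * b) -
        (j' : ℝ) ^ 2 * w * D ((j' : ℝ) * b) = (m * (2 * j' + m)) * w * D (((j' : ℝ) + m) * b) +
          (j' : ℝ) ^ 2 * w * (D (((j' : ℝ) + m) * b) - D ((j' : ℝ) * b)) := by ring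
      rw [e2]
      apply add_le_add
      · apply mul_le_mul_of_nonneg_left h2
        positivity
      · apply mul_le_mul_of_nonneg_left h1
        positivity
    have h4 : (m * (2 * (j' : ℝ) + m)) * w * (1 / 2) ≤ δ / 4 := by
      have h5 : (2 * (j' : ℝ) + m) ≤ 2 * (8 * s) := by linarith
      have h6 : (m : ℝ) * (2 * (j' : ℝ) + m) ≤ B * (2 * (8 * s)) :=
        mul_le_mul hmB' h5 (by positivity) hB0.le
      calc (m * (2 * (j' : ℝ) + m)) * w * (1 / 2) ≤ (B * (2 * (8 * s))) * w * (1 / 2) := by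
            apply mul_le_mul_of_nonneg_right _ (by norm_num)
            exact mul_le_mul_of_nonneg_right h6 hw.le
        _ = 8 * B * (s * w) := by ring
        _ ≤ 8 * B * (δ / (32 * B)) := by
            apply mul_le_mul_of_nonneg_left (hsw.trans hc2) (by positivity)
        _ = δ / 4 := by field_simp; norm_num
    have h7 : (j' : ℝ) ^ 2 * w * (1 / (B + 1)) ≤ δ / 4 := by
      have h8 : (j' : ℝ) ^ 2 ≤ (8 * s) ^ 2 := pow_le_pow_left₀ hj'0 (by linarith) 2
      have h9 : (j' : ℝ) ^ 2 * w ≤ 64 * t := by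
        calc (j' : ℝ) ^ 2 * w ≤ (8 * s) ^ 2 * w := mul_le_mul_of_nonneg_right h8 hw.le
          _ = 64 * t := by rw [← hs2]; ring
      rw [div_lt_iff₀ hδ] at hB
      rw [mul_one_div, div_le_iff₀ (by positivity)]
      nlinarith
    rw [abs_lt]
    constructor <;> linarith

/-- one good `q` gives a multiple with a value close to `t` -/
lemma core (t δ : ℝ) (ht : 0 < t) (hδ : 0 < δ) :
    ∃ ε : ℝ, 0 < ε ∧ ∀ (q : ℕ) (a b : ℝ), 1 ≤ q → 0 < D a → D a ≤ D b →
      (q : ℝ) * D a * D b < ε →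
      ∃ j : ℕ, 1 ≤ j ∧ |((j * q : ℕ) : ℝ) * D (j * a) * D (j * b) - t| < δ := by
  obtain ⟨ε₁, hε₁, HA⟩ := case_A t δ ht hδ
  obtain ⟨w₀, hw₀, HB⟩ := case_B t δ ht hδ
  set ε₂ : ℝ := min 1 (w₀ ^ 3 / (64 * t)) with hε₂
  have hε₂0 : 0 < ε₂ := by positivity
  refine ⟨min ε₁ ε₂, lt_min hε₁ hε₂0, ?_⟩
  intro q a b hq ha hab hlt
  have hq' : (1 : ℝ) ≤ q := by exact_mod_cast hq
  set w : ℝ := q * D a with hw
  have hw0 : 0 < w := by positivity
  have hv0 : 0 < D b := lt_of_lt_of_le ha hab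
  have huw : D a ≤ w := by
    rw [hw]
    nlinarith
  by_cases hcase : 64 * t * D b ^ 2 ≤ w
  · obtain ⟨j, hj1, hj2, hj3⟩ := HA w (D b) hv0 hw0 (lt_of_lt_of_le hlt (min_le_left _ _)) hcase
    refine ⟨j, hj1, ?_⟩
    have hj0 : (0 : ℝ) ≤ j := Nat.cast_nonneg _
    rw [D_mul_eq j b (by linarith), D_mul_eq j a (by nlinarith)]
    have e : ((j * q : ℕ) : ℝ) * (j * D a) * (j * D b) = (j : ℝ) ^ 3 * (w * D b) := by
      rw [hw]
      push_cast
      ring
    rw [e]
    exact hj3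
  · push Not at hcase
    have hww : w ≤ w₀ := by
      by_contra hcon
      push Not at hcon
      have h1 : (w * D b) ^ 2 < ε₂ := by
        have h2 : w * D b < ε₂ := lt_of_lt_of_le hlt (min_le_right _ _)
        have h3 : ε₂ ≤ 1 := min_le_left _ _
        have h4 : 0 < w * D b := by positivity
        nlinarith
      have h5 : ε₂ ≤ w₀ ^ 3 / (64 * t) := min_le_right _ _
      have h6 : w₀ ^ 3 < w ^ 3 := pow_lt_pow_left₀ hcon hw₀.le (by norm_num)
      have h7 : (w * D b) ^ 2 * (64 * t) < w₀ ^ 3 := by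
        have := lt_of_lt_of_le h1 h5
        rwa [lt_div_iff₀ (by positivity)] at this
      have h8 : w ^ 3 < (w * D b) ^ 2 * (64 * t) := by
        calc w ^ 3 = w ^ 2 * w := by ring
          _ < w ^ 2 * (64 * t * D b ^ 2) := mul_lt_mul_of_pos_left hcase (by positivity)
          _ = _ := by ring
      linarith
    obtain ⟨j, hj1, hj2, hj3⟩ := HB w (D b) b rfl hv0 hw0 hww hcase
    refine ⟨j, hj1, ?_⟩
    have hj0 : (0 : ℝ) ≤ j := Nat.cast_nonneg _
    rw [D_mul_eq j a (by nlinarith)]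
    have e : ((j * q : ℕ) : ℝ) * (j * D a) * D (j * b) = (j : ℝ) ^ 2 * w * D (j * b) := by
      rw [hw]
      push_cast
      ring
    rw [e]
    exact hj3

/-- the sequence `q ‖qα‖ ‖qβ‖` -/
noncomputable def seq (α β : ℝ) (q : ℕ) : ℝ :=
  (q : ℝ) * |(q : ℝ) * α - (round ((q : ℝ) * α) : ℝ)| * |(q : ℝ) * β - (round ((q : ℝ) * β) : ℝ)|

lemma D_pos {α : ℝ} (hα : Irrational α) {q : ℕ} (hq : 0 < q) : 0 < D (q * α) := by
  apply abs_pos.2
  intro h
  have h1 : Irrational ((q : ℝ) * α) := by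
    have := hα.natCast_mul hq.ne'
    exact this
  have h2 : Irrational (((q : ℝ) * α) - round ((q : ℝ) * α)) := h1.sub_intCast _
  rw [h] at h2
  exact not_irrational_zero h2

theorem dichotomy {α β : ℝ} (hα : Irrational α) (hβ : Irrational β)
    (h : ∀ ε : ℝ, 0 < ε → ∀ N : ℕ, ∃ q : ℕ, N ≤ q ∧ 0 < q ∧ seq α β q < ε) {t : ℝ} (ht : 0 ≤ t) :
    MapClusterPt t atTop (seq α β) := by
  rw [mapClusterPt_iff_frequently]
  intro s hs
  obtain ⟨δ, hδ, hball⟩ := Metric.mem_nhds_iff.1 hs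
  rw [Filter.frequently_atTop]
  intro N
  rcases ht.eq_or_lt with rfl | ht
  · obtain ⟨q, hq1, hq2, hq3⟩ := h δ hδ N
    refine ⟨q, hq1, hball ?_⟩
    rw [Metric.mem_ball, Real.dist_eq, sub_zero, abs_of_nonneg]
    · exact hq3
    · unfold seq; positivity
  · obtain ⟨ε, hε, H⟩ := core t δ ht hδ
    obtain ⟨q, hq1, hq2, hq3⟩ := h ε hε (N + 1)
    have e : ∀ q : ℕ, seq α β q = (q : ℝ) * D (q * α) * D (q * β) := fun q => rfl
    have e' : ∀ j : ℕ, seq α β (j * q) = ((j * q : ℕ) : ℝ) * D (j * (q * α)) * D (j * (q * β)) := by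
      intro j
      rw [e]
      push_cast
      rw [mul_assoc (j : ℝ) q α, mul_assoc (j : ℝ) q β]
    rw [e] at hq3
    have hmem : ∀ j : ℕ, 1 ≤ j → |seq α β (j * q) - t| < δ →
        ∃ b, N ≤ b ∧ seq α β b ∈ s := by
      intro j hj1 hj2
      refine ⟨j * q, ?_, hball ?_⟩
      · have : q ≤ j * q := Nat.le_mul_of_pos_left _ hj1
        omega
      · rw [Metric.mem_ball, Real.dist_eq]
        exact hj2
    rcases le_total (D (q * α)) (D (q * β)) with hle | hle
    · obtain ⟨j, hj1, hj2⟩ := H q (q * α) (q * β) hq2 (D_pos hα hq2) hle hq3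
      exact hmem j hj1 (by rw [e']; exact hj2)
    · obtain ⟨j, hj1, hj2⟩ := H q (q * β) (q * α) hq2 (D_pos hβ hq2) hle (by
        rw [mul_right_comm]; exact hq3)
      exact hmem j hj1 (by rw [e', mul_right_comm]; exact hj2)

end Pool.Agent.K6.H59.Lit
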