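import Mathlib
import Pool.Agent.K6.H59.Lit.Dich
import Pool.Agent.H715R2.Mink

/-!
Littlewood's conjecture for the pairs `(α, β + m α)`: one integer point gives information on all of
these pairs.
-/

set_option autoImplicit false

namespace Pool.Agent.K6.H59.Lit

open Filter Topology Matrix

/-- an integer point in an octahedron -/
lemma exists_point (α β Q U V : ℝ) (hQ : 0 < Q) (hU : 0 < U) (hV : 0 < V)
    (h : Q * U * V = 1 / 4) :
    ∃ q p r : ℤ, ¬ (q = 0 ∧ p = 0 ∧ r = 0) ∧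
      |(q : ℝ)| / Q + |q * α - p| / U + |q * β - r| / V < 3 := by
  set g : Matrix (Fin 3) (Fin 3) ℝ :=
    !![1 / Q, 0, 0; α / U, -(1 / U), 0; β / V, 0, -(1 / V)] with hg
  have hdet : g.det = 4 := by
    rw [hg, Matrix.det_fin_three]
    simp only [Matrix.of_apply, Matrix.cons_val', Matrix.cons_val_zero, Matrix.cons_val_one,
      Matrix.cons_val_fin_one, Matrix.cons_val]
    have : 1 / Q * (1 / U) * (1 / V) = 4 := by
      field_simp
      linarith
    nlinarith
  obtain ⟨m, hm0, hm⟩ := H715R2.mink (d := 3) (by norm_num) g (by rw [hdet]; norm_num) 3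
    (by norm_num) (by rw [hdet]; norm_num [Nat.factorial])
  refine ⟨m 0, m 1, m 2, ?_, ?_⟩
  · rintro ⟨h0, h1, h2⟩
    apply hm0
    funext i
    fin_cases i
    · exact h0
    · exact h1
    · exact h2
  · rw [Fin.sum_univ_three] at hm
    have e0 : (g *ᵥ H715R2.iR m) 0 = (m 0 : ℝ) / Q := by
      simp [hg, Matrix.mulVec, dotProduct, Fin.sum_univ_three, H715R2.iR]
      ring
    have e1 : (g *ᵥ H715R2.iR m) 1 = ((m 0 : ℝ) * α - m 1) / U := by
      simp [hg, Matrix.mulVec, dotProduct, Fin.sum_univ_three, H715R2.iR]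
      ring
    have e2 : (g *ᵥ H715R2.iR m) 2 = ((m 0 : ℝ) * β - m 2) / V := by
      simp [hg, Matrix.mulVec, dotProduct, Fin.sum_univ_three, H715R2.iR]
      ring
    rw [e0, e1, e2, abs_div, abs_div, abs_div, abs_of_pos hQ, abs_of_pos hU, abs_of_pos hV] at hm
    exact hm

/-- AM-GM inequalities for three numbers of sum less than `3` -/
lemma amgm1 {x y z : ℝ} (hx : 0 ≤ x) (hy : 0 ≤ y) (hz : 0 ≤ z) (h : x + y + z < 3) :
    x * y * z < 1 := by
  nlinarith [sq_nonneg (x - y), sq_nonneg (y - z), sq_nonneg (x - z), mul_nonneg hx hy,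
    mul_nonneg hy hz, mul_nonneg hx hz, sq_nonneg (x + y + z), mul_nonneg (mul_nonneg hx hy) hz]

lemma amgm2 {x y : ℝ} (hx : 0 ≤ x) (hy : 0 ≤ y) (h : x + y < 3) : x * y ^ 2 < 4 := by
  nlinarith [sq_nonneg (y - 2), mul_nonneg hx (sq_nonneg (y - 2)), mul_nonneg hx hy,
    sq_nonneg (x - 1), mul_nonneg hx (sq_nonneg y)]

lemma exists_lower {α : ℝ} (hα : Irrational α) (K : ℕ) :
    ∃ ρ : ℝ, 0 < ρ ∧ ∀ q : ℕ, 0 < q → q < K → ρ ≤ D (q * α) := by
  induction K with
  | zero => exact ⟨1, one_pos, fun q _ h => absurd h (Nat.not_lt_zero _)⟩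
  | succ K ih =>
    obtain ⟨ρ, hρ, h⟩ := ih
    rcases Nat.eq_zero_or_pos K with rfl | hK
    · exact ⟨1, one_pos, fun q h1 h2 => by omega⟩
    · refine ⟨min ρ (D (K * α)), lt_min hρ (D_pos hα hK), fun q h1 h2 => ?_⟩
      rcases Nat.lt_succ_iff_lt_or_eq.1 h2 with h3 | rfl
      · exact (min_le_left _ _).trans (h q h1 h3)
      · exact min_le_right _ _

lemma irrational_of {α β c : ℝ} (hc : 0 < c) (h : ∀ᶠ q : ℕ in atTop, c ≤ seq α β q) :
    Irrational α := by
  rw [eventually_atTop] at h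
  obtain ⟨N, hN⟩ := h
  rintro ⟨x, rfl⟩
  have h1 := hN ((N + 1) * x.den) (by
    calc N ≤ N + 1 := Nat.le_succ _
      _ ≤ (N + 1) * x.den := Nat.le_mul_of_pos_right _ x.den_pos)
  have h2 : (((N + 1) * x.den : ℕ) : ℝ) * (x : ℝ) = (((N + 1 : ℕ) * x.num : ℤ) : ℝ) := by
    have h3 : ((x.den : ℕ) : ℝ) * (x : ℝ) = (x.num : ℝ) := by
      exact_mod_cast Rat.den_mul_eq_num x
    push_cast
    rw [mul_assoc, h3]
  unfold seq at h1
  rw [h2, round_intCast, sub_self, abs_zero, mul_zero, zero_mul] at h1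
  linarith

/-- the basic inequality: a denominator `q ≥ N`, and a real number `t` -/
lemma basic {α β c A : ℝ} (hc : 0 < c) (hA : 0 < A) (h : ∀ᶠ q : ℕ in atTop, c ≤ seq α β q)
    (N : ℕ) : ∃ (q : ℕ) (w t : ℝ), N ≤ q ∧ 0 < w ∧ w < 1 / A ∧ w * |t| < 1 / 4 ∧
      c * A < |t| ∧ |t| < A / c ∧ ∀ l m : ℤ, seq α (l * β + m * α) q ≤ w * |l * t - m| := by
  have hα := irrational_of hc h
  rw [eventually_atTop] at h
  obtain ⟨N₁, hN₁⟩ := h
  obtain ⟨ρ, hρ, hρ'⟩ := exists_lower hα (max N N₁)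
  set U : ℝ := min (ρ / 3) (min (1 / 3) (1 / (3 * A))) with hU
  have hU0 : 0 < U := by positivity
  have hU1 : 3 * U ≤ ρ := by
    have : U ≤ ρ / 3 := min_le_left _ _
    linarith
  have hU2 : 3 * U ≤ 1 := by
    have : U ≤ 1 / 3 := (min_le_right _ _).trans (min_le_left _ _)
    linarith
  have hU3 : 3 * (A * U) ≤ 1 := by
    have h1 : U ≤ 1 / (3 * A) := (min_le_right _ _).trans (min_le_right _ _)
    rw [le_div_iff₀ (by positivity)] at h1
    linarith
  have hQ0 : 0 < 1 / (4 * A * U ^ 2) := by positivity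
  obtain ⟨q, p, r, h0, hsum⟩ := exists_point α β (1 / (4 * A * U ^ 2)) U (A * U) hQ0 hU0
    (by positivity) (by field_simp)
  have key : ∀ q p r : ℤ, 0 ≤ q → ¬ (q = 0 ∧ p = 0 ∧ r = 0) →
      |(q : ℝ)| / (1 / (4 * A * U ^ 2)) + |q * α - p| / U + |q * β - r| / (A * U) < 3 →
      ∃ (q : ℕ) (w t : ℝ), N ≤ q ∧ 0 < w ∧ w < 1 / A ∧ w * |t| < 1 / 4 ∧
      c * A < |t| ∧ |t| < A / c ∧ ∀ l m : ℤ, seq α (l * β + m * α) q ≤ w * |l * t - m| := by
    clear h0 hsum q p r
    intro q p r hq h0 hsum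
    obtain ⟨q, rfl⟩ := Int.eq_ofNat_of_zero_le hq
    rw [Int.cast_natCast] at hsum
    set x : ℝ := |(q : ℝ)| / (1 / (4 * A * U ^ 2)) with hx
    set y : ℝ := |(q : ℝ) * α - p| / U with hy
    set z : ℝ := |(q : ℝ) * β - r| / (A * U) with hz
    have hx0 : 0 ≤ x := by positivity
    have hy0 : 0 ≤ y := by positivity
    have hz0 : 0 ≤ z := by positivity
    have hu : |(q : ℝ) * α - p| = y * U := by rw [hy]; field_simp
    have hv : |(q : ℝ) * β - r| = z * (A * U) := by rw [hz]; field_simp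
    have hqx : (q : ℝ) * (4 * A * U ^ 2) = x := by
      rw [hx, Nat.abs_cast]
      field_simp
    have hq0 : 0 < q := by
      rcases Nat.eq_zero_or_pos q with rfl | h1
      · exfalso
        apply h0
        have e1 : |(p : ℝ)| < 1 := by
          have : |((0 : ℕ) : ℝ) * α - p| = |(p : ℝ)| := by
            rw [Nat.cast_zero, zero_mul, zero_sub, abs_neg]
          rw [← this, hu]
          nlinarith
        have e2 : |(r : ℝ)| < 1 := by
          have : |((0 : ℕ) : ℝ) * β - r| = |(r : ℝ)| := by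
            rw [Nat.cast_zero, zero_mul, zero_sub, abs_neg]
          rw [← this, hv]
          nlinarith [mul_pos hA hU0]
        have e3 : |p| < 1 := by exact_mod_cast e1
        have e4 : |r| < 1 := by exact_mod_cast e2
        rw [Int.abs_lt_one_iff] at e3 e4
        exact ⟨rfl, e3, e4⟩
      · exact h1
    have hqR : (0 : ℝ) < q := by exact_mod_cast hq0
    have hqN : max N N₁ ≤ q := by
      by_contra hcon
      push Not at hcon
      have h1 := hρ' q hq0 hcon
      have h2 : D (q * α) ≤ y * U := by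
        rw [← hu]
        exact D_le _ _
      nlinarith
    have hNq : N ≤ q := (le_max_left _ _).trans hqN
    have hN₁q : N₁ ≤ q := (le_max_right _ _).trans hqN
    have hDu : D (q * α) ≤ |(q : ℝ) * α - p| := D_le _ _
    have hDv : D (q * β) ≤ |(q : ℝ) * β - r| := D_le _ _
    have hcuv : c ≤ q * |(q : ℝ) * α - p| * |(q : ℝ) * β - r| := by
      refine (hN₁ q hN₁q).trans ?_
      change (q : ℝ) * D (q * α) * D (q * β) ≤ _
      have := D_nonneg ((q : ℝ) * β)
      have := D_nonneg ((q : ℝ) * α)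
      gcongr
    set u : ℝ := (q : ℝ) * α - p with hud
    set v : ℝ := (q : ℝ) * β - r with hvd
    have huv : (q : ℝ) * |u| * |v| = x * y * z / 4 := by
      rw [hu, hv, ← hqx]
      ring
    have hpos : 0 < (q : ℝ) * |u| * |v| := lt_of_lt_of_le hc hcuv
    have hu0 : 0 < |u| := by
      rcases (abs_nonneg u).lt_or_eq with h1 | h1
      · exact h1
      · rw [← h1, mul_zero, zero_mul] at hpos
        exact absurd hpos (lt_irrefl _)
    have hu0' : u ≠ 0 := abs_pos.1 hu0
    have hw1 : (q : ℝ) * u ^ 2 < 1 / A := by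
      have h1 := amgm2 hx0 hy0 (by linarith)
      have h2 : (q : ℝ) * u ^ 2 * (4 * A) = x * y ^ 2 := by
        rw [← sq_abs u, hu, ← hqx]
        ring
      rw [lt_div_iff₀ hA]
      linarith
    have hv1 : (q : ℝ) * v ^ 2 < A := by
      have h1 := amgm2 hx0 hz0 (by linarith)
      have h2 : (q : ℝ) * v ^ 2 * 4 = A * (x * z ^ 2) := by
        rw [← sq_abs v, hv, ← hqx]
        ring
      nlinarith
    have ht : |(-(v / u))| = |v| / |u| := by rw [abs_neg, abs_div]
    have hwt : (q : ℝ) * u ^ 2 * |(-(v / u))| = q * |u| * |v| := by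
      rw [ht, ← sq_abs u]
      field_simp
    refine ⟨q, q * u ^ 2, -(v / u), hNq, by positivity, hw1, ?_, ?_, ?_, ?_⟩
    · rw [hwt, huv]
      have := amgm1 hx0 hy0 hz0 hsum
      linarith
    · -- lower bound
      have h1 : c ≤ (q : ℝ) * u ^ 2 * |(-(v / u))| := by rw [hwt]; exact hcuv
      have h2 : 0 < |(-(v / u))| := by
        rcases (abs_nonneg (-(v / u))).lt_or_eq with h3 | h3
        · exact h3
        · rw [← h3, mul_zero] at h1
          linarith
      have h3 : (q : ℝ) * u ^ 2 * |(-(v / u))| < 1 / A * |(-(v / u))| :=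
        mul_lt_mul_of_pos_right hw1 h2
      have h4 : c < 1 / A * |(-(v / u))| := lt_of_le_of_lt h1 h3
      rw [one_div_mul_eq_div, lt_div_iff₀ hA] at h4
      exact h4
    · rw [ht, lt_div_iff₀ hc, div_mul_eq_mul_div, div_lt_iff₀ hu0]
      have h1 : |v| * c ≤ |v| * (q * |u| * |v|) := mul_le_mul_of_nonneg_left hcuv (abs_nonneg _)
      have h2 : |v| * (q * |u| * |v|) = (q : ℝ) * v ^ 2 * |u| := by
        rw [← sq_abs v]
        ring
      rw [h2] at h1
      exact lt_of_le_of_lt h1 (mul_lt_mul_of_pos_right hv1 hu0)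
    · intro l m
      have h1 : D ((q : ℝ) * (l * β + m * α)) ≤ |l * v + m * u| := by
        refine (D_le _ (l * r + m * p)).trans (le_of_eq ?_)
        congr 1
        rw [hud, hvd]
        push_cast
        ring
      have h2 : |(l : ℝ) * v + m * u| = |u| * |l * (-(v / u)) - m| := by
        rw [← abs_mul, ← abs_neg]
        congr 1
        field_simp
        ring
      change (q : ℝ) * D (q * α) * D (q * (l * β + m * α)) ≤ _
      rw [h2] at h1
      calc (q : ℝ) * D (q * α) * D (q * (l * β + m * α)) ≤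
          q * |u| * (|u| * |l * (-(v / u)) - m|) := by
            have := D_nonneg ((q : ℝ) * α)
            have := D_nonneg ((q : ℝ) * (l * β + m * α))
            gcongr
        _ = q * u ^ 2 * |l * (-(v / u)) - m| := by rw [← sq_abs u]; ring
  rcases le_total 0 q with hq | hq
  · exact key q p r hq h0 hsum
  · refine key (-q) (-p) (-r) (by omega) (by omega) ?_
    have e1 : |((-q : ℤ) : ℝ)| = |(q : ℝ)| := by rw [Int.cast_neg, abs_neg]
    have e2 : |((-q : ℤ) : ℝ) * α - ((-p : ℤ) : ℝ)| = |(q : ℝ) * α - p| := by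
      rw [← abs_neg]; congr 1; push_cast; ring
    have e3 : |((-q : ℤ) : ℝ) * β - ((-r : ℤ) : ℝ)| = |(q : ℝ) * β - r| := by
      rw [← abs_neg]; congr 1; push_cast; ring
    rw [e1, e2, e3]
    exact hsum

theorem shifts {α β c A δ : ℝ} (hc : 0 < c) (hA : 0 < A) (M : Finset (ℤ × ℤ))
    (hM : ∀ t : ℝ, c * A < |t| → |t| < A / c → ∃ x ∈ M, |x.1 * t - x.2| ≤ δ * max A (4 * |t|)) :
    (∃ᶠ q : ℕ in atTop, seq α β q < c) ∨
      ∃ x ∈ M, ∃ᶠ q : ℕ in atTop, seq α (x.1 * β + x.2 * α) q ≤ δ := by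
  by_cases h : ∃ᶠ q : ℕ in atTop, seq α β q < c
  · exact Or.inl h
  · right
    rw [not_frequently] at h
    have h' : ∀ᶠ q : ℕ in atTop, c ≤ seq α β q := h.mono fun q hq => not_lt.1 hq
    by_contra hcon
    push Not at hcon
    have h2 : ∀ᶠ q : ℕ in atTop, ∀ x ∈ M, δ < seq α (x.1 * β + x.2 * α) q :=
      (Finset.eventually_all M).2 hcon
    rw [eventually_atTop] at h2
    obtain ⟨N, hN⟩ := h2
    obtain ⟨q, w, t, hq, hw0, hw1, hw2, ht1, ht2, hall⟩ := basic hc hA h' N
    obtain ⟨x, hx, hxt⟩ := hM t ht1 ht2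
    apply absurd (hN q hq x hx)
    rw [not_lt]
    refine (hall x.1 x.2).trans ?_
    have ht0 : 0 < |t| := lt_trans (by positivity) ht1
    have h3 : w * max A (4 * |t|) ≤ 1 := by
      rcases max_choice A (4 * |t|) with h4 | h4
      · rw [h4]
        rw [lt_div_iff₀ hA] at hw1
        exact hw1.le
      · rw [h4]
        linarith
    have hδ : 0 ≤ δ := by
      have h4 : 0 < max A (4 * |t|) := lt_max_of_lt_left hA
      have h5 := (abs_nonneg _).trans hxt
      exact nonneg_of_mul_nonneg_left h5 h4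
    calc w * |x.1 * t - x.2| ≤ w * (δ * max A (4 * |t|)) :=
          mul_le_mul_of_nonneg_left hxt hw0.le
      _ = δ * (w * max A (4 * |t|)) := by ring
      _ ≤ δ * 1 := mul_le_mul_of_nonneg_left h3 hδ
      _ = δ := mul_one δ

end Pool.Agent.K6.H59.Lit
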